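import Mathlib
import Pool.Agent.H523R3.TransMain

/-!
# Simplicial 3-polytopes with the transversal ratio nearly 1/2

A chain of nested triangles with four vertices in each layer.
-/

set_option autoImplicit false

namespace Pool.Agent.W5h32.TR

open Pool.Agent.H523R3.Trans Pool.Agent.H523R3.Frames

/-- the heights of the vertex `v` (layer `v / 4`, type `v % 4`) -/
def G (K : ℤ) (k : ℕ) (v : ℕ) : ℤ :=
  if k = 0 then
    (if v % 4 = 0 then K - (v / 4 : ℕ) else if v % 4 = 1 then 3 * (v / 4 : ℕ) else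
      if v % 4 = 2 then 3 * (v / 4 : ℕ) + 1 else 3 * (v / 4 : ℕ) + 2)
  else if k = 1 then
    (if v % 4 = 0 then 2 * (v / 4 : ℕ) + 1 else if v % 4 = 1 then K - 2 * (v / 4 : ℕ) else
      if v % 4 = 2 then 2 * (v / 4 : ℕ) else K - 2 * (v / 4 : ℕ) - 1)
  else
    (if v % 4 = 0 then 3 * (v / 4 : ℕ) else if v % 4 = 1 then 3 * (v / 4 : ℕ) + 1 else
      if v % 4 = 2 then K - (v / 4 : ℕ) else 3 * (v / 4 : ℕ) + 2)

lemma G_anti (M : ℕ) (v w : ℕ) (hv : v < 4 * M) (hw : w < 4 * M) (hne : v ≠ w) :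
    ∃ k, k < 3 ∧ G (16 * M + 16) k v < G (16 * M + 16) k w := by
  by_contra hcon
  push Not at hcon
  have h0 := hcon 0 (by norm_num)
  have h1 := hcon 1 (by norm_num)
  have h2 := hcon 2 (by norm_num)
  unfold G at h0 h1 h2
  simp only [if_true, one_ne_zero, if_false, OfNat.ofNat_ne_zero, OfNat.ofNat_ne_one] at h0 h1 h2
  split_ifs at h0 h1 h2 <;> omega

/-- the height functions -/
def FF (M : ℕ) : Fin 3 → Fin (4 * M) → ℤ := fun k v => G (16 * M + 16) k v

lemma FF_anti (M : ℕ) (i j : Fin (4 * M)) (h : i ≠ j) : ∃ k, FF M k i < FF M k j := by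
  obtain ⟨k, hk, h1⟩ := G_anti M i j i.2 j.2 (fun h2 => h (Fin.ext h2))
  exact ⟨⟨k, hk⟩, h1⟩

/-- the conditions of a frame, for natural numbers -/
def Fr (M x y z : ℕ) : Prop :=
  (G (16 * M + 16) 0 y < G (16 * M + 16) 0 x ∧ G (16 * M + 16) 0 z < G (16 * M + 16) 0 x) ∧
  (G (16 * M + 16) 1 x < G (16 * M + 16) 1 y ∧ G (16 * M + 16) 1 z < G (16 * M + 16) 1 y) ∧
  (G (16 * M + 16) 2 x < G (16 * M + 16) 2 z ∧ G (16 * M + 16) 2 y < G (16 * M + 16) 2 z) ∧
  ∀ v, v < 4 * M → v ≠ x → v ≠ y → v ≠ z →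
    G (16 * M + 16) 0 x < G (16 * M + 16) 0 v ∨ G (16 * M + 16) 1 y < G (16 * M + 16) 1 v ∨
      G (16 * M + 16) 2 z < G (16 * M + 16) 2 v

lemma hit {M : ℕ} {s : ℝ} (hs : 0 < s)
    (hF : ∀ (k : Fin 3) (i j : Fin (4 * M)), FF M k i < FF M k j →
      4 * (3 : ℕ) * crd (FF M) s k i ≤ crd (FF M) s k j)
    (hp : IsSimplicialPolytope 3 (pt (FF M) s)) {W : Finset (Fin (4 * M))}
    (hW : IsTransversal (boundary (pt (FF M) s)) W) {x y z : ℕ} (hx : x < 4 * M) (hy : y < 4 * M)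
    (hz : z < 4 * M) (h : Fr M x y z) : (⟨x, hx⟩ : Fin (4 * M)) ∈ W ∨ (⟨y, hy⟩ : Fin (4 * M)) ∈ W ∨
      (⟨z, hz⟩ : Fin (4 * M)) ∈ W := by
  obtain ⟨⟨a1, a2⟩, ⟨a3, a4⟩, ⟨a5, a6⟩, a7⟩ := h
  obtain ⟨v, hv1, hv2⟩ := hW _ (isFacet_of_frame (by norm_num : 0 < 3) (FF M) hs hF hp
    ![⟨x, hx⟩, ⟨y, hy⟩, ⟨z, hz⟩] (by
      intro k l hlk
      fin_cases k <;> fin_cases l <;> first | exact absurd rfl hlk | assumption) (by
      intro v hv
      have h0 := hv 0
      have h1 := hv 1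
      have h2 := hv 2
      rcases a7 v v.2 (fun h => h0 (Fin.ext h)) (fun h => h1 (Fin.ext h)) (fun h => h2 (Fin.ext h))
        with h | h | h
      · exact ⟨0, h⟩
      · exact ⟨1, h⟩
      · exact ⟨2, h⟩))
  simp only [Finset.mem_image, Finset.mem_univ, true_and] at hv1
  obtain ⟨k, rfl⟩ := hv1
  fin_cases k
  · exact Or.inl hv2
  · exact Or.inr (Or.inl hv2)
  · exact Or.inr (Or.inr hv2)

lemma G_a (K : ℤ) (k i : ℕ) : G K k (4 * i) = if k = 0 then K - i else if k = 1 then 2 * i + 1 else 3 * i := by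
  unfold G
  split_ifs <;> omega

lemma G_b (K : ℤ) (k i : ℕ) : G K k (4 * i + 1) = if k = 0 then 3 * (i : ℤ) else if k = 1 then K - 2 * i else 3 * i + 1 := by
  unfold G
  split_ifs <;> omega

lemma G_c (K : ℤ) (k i : ℕ) : G K k (4 * i + 2) = if k = 0 then 3 * (i : ℤ) + 1 else if k = 1 then 2 * (i : ℤ) else K - i := by
  unfold G
  split_ifs <;> omega

lemma G_g (K : ℤ) (k i : ℕ) : G K k (4 * i + 3) = if k = 0 then 3 * (i : ℤ) + 2 else if k = 1 then K - 2 * i - 1 else 3 * i + 2 := by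
  unfold G
  split_ifs <;> omega

lemma cases4 (v : ℕ) : ∃ j, v = 4 * j ∨ v = 4 * j + 1 ∨ v = 4 * j + 2 ∨ v = 4 * j + 3 :=
  ⟨v / 4, by omega⟩

lemma frames (M i : ℕ) (hi : 4 * i + 7 < 4 * M) :
    Fr M (4 * i) (4 * i + 1) (4 * i + 3) ∧ Fr M (4 * i) (4 * (i + 1) + 2) (4 * i + 2) ∧
    Fr M (4 * i) (4 * i + 3) (4 * (i + 1)) ∧ Fr M (4 * i) (4 * (i + 1)) (4 * (i + 1) + 2) ∧
    Fr M (4 * i + 3) (4 * i + 1) (4 * i + 2) ∧ Fr M (4 * (i + 1) + 2) (4 * (i + 1) + 1) (4 * i + 2) ∧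
    Fr M (4 * (i + 1) + 1) (4 * i + 3) (4 * i + 2) ∧ Fr M (4 * (i + 1)) (4 * i + 3) (4 * (i + 1) + 1) := by
  unfold Fr
  simp only [G_a, G_b, G_c, G_g, if_true, one_ne_zero, if_false, OfNat.ofNat_ne_zero, OfNat.ofNat_ne_one]
  push_cast
  refine ⟨?_, ?_, ?_, ?_, ?_, ?_, ?_, ?_⟩ <;>
    refine ⟨⟨by omega, by omega⟩, ⟨by omega, by omega⟩, ⟨by omega, by omega⟩, fun v hv h1 h2 h3 => ?_⟩ <;>
    obtain ⟨j, rfl | rfl | rfl | rfl⟩ := cases4 v <;>
    simp only [G_a, G_b, G_c, G_g, if_true, one_ne_zero, if_false, OfNat.ofNat_ne_zero, OfNat.ofNat_ne_one] <;>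
    omega

/-- the local inequality -/
lemma local_ineq : ∀ a b c g d e f : Bool, (a || b || g) = true → (a || f || c) = true → (a || g || d) = true →
    (a || d || f) = true → (g || b || c) = true → (f || e || c) = true → (e || g || c) = true →
    (d || g || e) = true →
    2 + (if a.toNat + b.toNat + c.toNat ≤ 1 then 1 else 0) ≤ g.toNat + d.toNat + e.toNat + f.toNat +
      (if d.toNat + e.toNat + f.toNat ≤ 1 then 1 else 0) := by
  intro a b c g d e f
  cases a <;> cases b <;> cases c <;> cases g <;> cases d <;> cases e <;> cases f <;> simp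

open Classical in
/-- membership in `W`, for natural numbers -/
noncomputable def ind {n : ℕ} (W : Finset (Fin n)) (v : ℕ) : Bool := decide (∃ h : v < n, (⟨v, h⟩ : Fin n) ∈ W)

lemma ind_eq {n : ℕ} (W : Finset (Fin n)) (v : ℕ) (h : v < n) : ind W v = true ↔ (⟨v, h⟩ : Fin n) ∈ W := by
  unfold ind
  rw [decide_eq_true_iff]
  exact ⟨fun ⟨_, h2⟩ => h2, fun h2 => ⟨h, h2⟩⟩

lemma card_ind {n : ℕ} (W : Finset (Fin n)) : W.card = ∑ v ∈ Finset.range n, (ind W v).toNat := by
  classical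
  rw [← Fin.sum_univ_eq_sum_range (fun v => (ind W v).toNat) n, Finset.card_eq_sum_ones,
    ← Finset.sum_filter_add_sum_filter_not Finset.univ (fun i => i ∈ W)]
  have h1 : Finset.univ.filter (fun i => i ∈ W) = W := by ext i; simp
  rw [h1]
  have h2 : ∀ i ∈ W, (ind W i).toNat = 1 := by
    intro i hi
    have : ind W i = true := (ind_eq W i i.2).2 hi
    rw [this]; rfl
  have h3 : ∀ i ∈ Finset.univ.filter (fun i => ¬ i ∈ W), (ind W i).toNat = 0 := by
    intro i hi
    rw [Finset.mem_filter] at hi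
    have : ind W i = false := by
      rw [← Bool.not_eq_true, ind_eq W i i.2]
      exact hi.2
    rw [this]; rfl
  rw [Finset.sum_congr rfl h2, Finset.sum_congr rfl h3]
  simp

/-- a set which meets all the triples has at least `2 m` elements -/
lemma count_le {M : ℕ} (W : Finset (Fin (4 * M)))
    (h : ∀ x y z : ℕ, x < 4 * M → y < 4 * M → z < 4 * M → Fr M x y z →
      (ind W x || ind W y || ind W z) = true) : ∀ m : ℕ, 4 * m + 3 ≤ 4 * M →
    2 * m + 1 ≤ ∑ v ∈ Finset.range (4 * m + 3), (ind W v).toNat +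
      (if (ind W (4 * m)).toNat + (ind W (4 * m + 1)).toNat + (ind W (4 * m + 2)).toNat ≤ 1 then 1 else 0) := by
  intro m
  induction m with
  | zero =>
    intro _
    simp only [Finset.sum_range_succ, Finset.range_zero, Finset.sum_empty, mul_zero, zero_add]
    split_ifs <;> omega
  | succ m ih =>
    intro hm
    have ih' := ih (by omega)
    obtain ⟨f1, f2, f3, f4, f5, f6, f7, f8⟩ := frames M m (by omega)
    have key := local_ineq (ind W (4 * m)) (ind W (4 * m + 1)) (ind W (4 * m + 2)) (ind W (4 * m + 3))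
      (ind W (4 * (m + 1))) (ind W (4 * (m + 1) + 1)) (ind W (4 * (m + 1) + 2))
      (h _ _ _ (by omega) (by omega) (by omega) f1) (h _ _ _ (by omega) (by omega) (by omega) f2)
      (h _ _ _ (by omega) (by omega) (by omega) f3) (h _ _ _ (by omega) (by omega) (by omega) f4)
      (h _ _ _ (by omega) (by omega) (by omega) f5) (h _ _ _ (by omega) (by omega) (by omega) f6)
      (h _ _ _ (by omega) (by omega) (by omega) f7) (h _ _ _ (by omega) (by omega) (by omega) f8)
    have e1 : ∑ v ∈ Finset.range (4 * (m + 1) + 3), (ind W v).toNat =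
        ∑ v ∈ Finset.range (4 * m + 3), (ind W v).toNat + (ind W (4 * m + 3)).toNat + (ind W (4 * (m + 1))).toNat +
          (ind W (4 * (m + 1) + 1)).toNat + (ind W (4 * (m + 1) + 2)).toNat := by
      have e2 : 4 * (m + 1) + 3 = 4 * m + 3 + 1 + 1 + 1 + 1 := by ring
      have e3 : 4 * m + 3 + 1 = 4 * (m + 1) := by ring
      have e4 : 4 * m + 3 + 1 + 1 = 4 * (m + 1) + 1 := by ring
      have e5 : 4 * m + 3 + 1 + 1 + 1 = 4 * (m + 1) + 2 := by ring
      rw [e2, Finset.sum_range_succ, Finset.sum_range_succ, Finset.sum_range_succ, Finset.sum_range_succ,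
        e5, e4, e3]
    rw [e1]
    omega

/-- there are simplicial 3-polytopes with the transversal ratio nearly 1/2 -/
theorem exists_three (M : ℕ) (hM : 1 ≤ M) : ∃ p : Fin (4 * M) → E 3, IsSimplicialPolytope 3 p ∧
    1 / 2 - 1 / (2 * (M : ℝ)) ≤ transversalRatio (boundary p) := by
  classical
  obtain ⟨s, hs, hF, hgp⟩ := exists_paramD (by norm_num : 0 < 3) (FF M)
  have hp := isSimplicialPolytope_pt (by norm_num : 0 < 3) (by omega) (FF M) (FF_anti M) hs hF hgp
  refine ⟨pt (FF M) s, hp, ?_⟩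
  have hn0 : 0 < 4 * M := by omega
  have hΔ := isComplex_boundary (by norm_num : 0 < 3) hp
  have hne : {k | ∃ W, IsTransversal (boundary (pt (FF M) s)) W ∧ W.card = k}.Nonempty := by
    refine ⟨_, Finset.univ, ?_, rfl⟩
    intro t ht
    have hne : t.Nonempty := by
      by_contra hcon
      rw [Finset.not_nonempty_iff_eq_empty] at hcon
      have := ht.2 {⟨0, hn0⟩} (hΔ.vert _) (by rw [hcon]; exact Finset.empty_subset _)
      rw [hcon] at this
      exact Finset.singleton_ne_empty _ this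
    obtain ⟨v, hv⟩ := hne
    exact ⟨v, hv, Finset.mem_univ v⟩
  obtain ⟨W, hW, hWcard⟩ := Nat.sInf_mem hne
  have hhit : ∀ x y z : ℕ, x < 4 * M → y < 4 * M → z < 4 * M → Fr M x y z →
      (ind W x || ind W y || ind W z) = true := by
    intro x y z hx hy hz hfr
    rw [Bool.or_eq_true, Bool.or_eq_true, ind_eq W x hx, ind_eq W y hy, ind_eq W z hz, or_assoc]
    exact hit hs hF hp hW hx hy hz hfr
  have hc := count_le W hhit (M - 1) (by omega)
  have hle : ∑ v ∈ Finset.range (4 * (M - 1) + 3), (ind W v).toNat ≤ W.card := by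
    rw [card_ind W]
    apply Finset.sum_le_sum_of_subset
    intro v hv
    rw [Finset.mem_range] at hv ⊢
    omega
  have hc2 : 2 * (M - 1) ≤ W.card := by
    split_ifs at hc <;> omega
  have hMR : (0 : ℝ) < M := by exact_mod_cast (by omega : 0 < M)
  have hc3 : 2 * (M : ℝ) - 2 ≤ W.card := by
    have : 2 * M ≤ W.card + 2 := by omega
    have h2 : 2 * (M : ℝ) ≤ W.card + 2 := by exact_mod_cast this
    linarith
  unfold transversalRatio transversalNumber
  rw [← hWcard]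
  push_cast
  rw [le_div_iff₀ (by positivity)]
  have : (1 / 2 - 1 / (2 * (M : ℝ))) * (4 * M) = 2 * M - 2 := by
    field_simp
    ring
  rw [this]
  exact hc3

end Pool.Agent.W5h32.TR
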