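import Mathlib
import Pool.Agent.H523R3.TransMain

/-!
# Simplicial 1-spheres have the transversal number at most (n + 1) / 2
-/

set_option autoImplicit false

namespace Pool.Agent.W5h32.TR

open Pool.Agent.H523R3.Trans Set Filter Topology

/-- the vertex as a point of the realization -/
noncomputable def vt {n : ℕ} {Δ : Set (Finset (Fin n))} (hΔ : IsComplex Δ) (v : Fin n) : realization Δ :=
  ⟨Pi.single v 1, by
    refine ⟨fun i => ?_, ?_, ?_⟩
    · by_cases h : i = v
      · rw [h, Pi.single_eq_same]; norm_num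
      · rw [Pi.single_eq_of_ne h]
    · rw [Finset.sum_pi_single']
      simp
    · have : Finset.univ.filter (fun i => (Pi.single v (1 : ℝ) : Fin n → ℝ) i ≠ 0) = {v} := by
        ext i
        rw [Finset.mem_filter, Finset.mem_singleton]
        constructor
        · rintro ⟨_, h⟩
          by_contra hne
          exact h (Pi.single_eq_of_ne hne _)
        · rintro rfl
          exact ⟨Finset.mem_univ _, by rw [Pi.single_eq_same]; norm_num⟩
      rw [this]
      exact hΔ.vert v⟩

lemma vt_ne {n : ℕ} {Δ : Set (Finset (Fin n))} (hΔ : IsComplex Δ) {v w : Fin n} (h : v ≠ w) :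
    vt hΔ v ≠ vt hΔ w := by
  intro h2
  have h3 := congrArg (fun x : realization Δ => (x : Fin n → ℝ) v) h2
  simp only [vt] at h3
  rw [Pi.single_eq_same, Pi.single_eq_of_ne h] at h3
  norm_num at h3

/-- the points of the edge `{u, w}` -/
noncomputable def seg {n : ℕ} {Δ : Set (Finset (Fin n))} (hΔ : IsComplex Δ) {u w : Fin n} (huw : u ≠ w)
    (hf : ({u, w} : Finset (Fin n)) ∈ Δ) (t : Icc (0 : ℝ) 1) : realization Δ :=
  ⟨fun i => (1 - (t : ℝ)) * (Pi.single u 1 : Fin n → ℝ) i + (t : ℝ) * (Pi.single w 1 : Fin n → ℝ) i, by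
    have ht := t.2
    rw [mem_Icc] at ht
    refine ⟨fun i => ?_, ?_, ?_⟩
    · have h1 : (0 : ℝ) ≤ (Pi.single u 1 : Fin n → ℝ) i := by
        by_cases h : i = u
        · rw [h, Pi.single_eq_same]; norm_num
        · rw [Pi.single_eq_of_ne h]
      have h2 : (0 : ℝ) ≤ (Pi.single w 1 : Fin n → ℝ) i := by
        by_cases h : i = w
        · rw [h, Pi.single_eq_same]; norm_num
        · rw [Pi.single_eq_of_ne h]
      have := mul_nonneg (by linarith : (0 : ℝ) ≤ 1 - t) h1
      have := mul_nonneg ht.1 h2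
      linarith
    · rw [Finset.sum_add_distrib, ← Finset.mul_sum, ← Finset.mul_sum, Finset.sum_pi_single',
        Finset.sum_pi_single']
      simp
    · refine hΔ.down _ hf _ ?_
      intro i hi
      rw [Finset.mem_filter] at hi
      by_contra hcon
      rw [Finset.mem_insert, Finset.mem_singleton, not_or] at hcon
      apply hi.2
      beta_reduce
      rw [Pi.single_eq_of_ne hcon.1, Pi.single_eq_of_ne hcon.2]
      ring⟩

lemma continuous_seg {n : ℕ} {Δ : Set (Finset (Fin n))} (hΔ : IsComplex Δ) {u w : Fin n} (huw : u ≠ w)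
    (hf : ({u, w} : Finset (Fin n)) ∈ Δ) : Continuous (seg hΔ huw hf) := by
  apply Continuous.subtype_mk
  apply continuous_pi
  intro i
  fun_prop

lemma seg_zero {n : ℕ} {Δ : Set (Finset (Fin n))} (hΔ : IsComplex Δ) {u w : Fin n} (huw : u ≠ w)
    (hf : ({u, w} : Finset (Fin n)) ∈ Δ) : seg hΔ huw hf 0 = vt hΔ u := by
  apply Subtype.ext
  funext i
  simp [seg, vt]

lemma seg_one {n : ℕ} {Δ : Set (Finset (Fin n))} (hΔ : IsComplex Δ) {u w : Fin n} (huw : u ≠ w)
    (hf : ({u, w} : Finset (Fin n)) ∈ Δ) : seg hΔ huw hf 1 = vt hΔ w := by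
  apply Subtype.ext
  funext i
  simp [seg, vt]

lemma seg_ne {n : ℕ} {Δ : Set (Finset (Fin n))} (hΔ : IsComplex Δ) {u w : Fin n} (huw : u ≠ w)
    (hf : ({u, w} : Finset (Fin n)) ∈ Δ) {z : Fin n} (hu : z ≠ u) (hw : z ≠ w) (t : Icc (0 : ℝ) 1) :
    seg hΔ huw hf t ≠ vt hΔ z := by
  intro h2
  have h3 := congrArg (fun x : realization Δ => (x : Fin n → ℝ) z) h2
  simp only [seg, vt] at h3
  rw [Pi.single_eq_same, Pi.single_eq_of_ne hu, Pi.single_eq_of_ne hw] at h3
  norm_num at h3

/-- removing a point from the circle: an injective continuous map to the line -/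
lemma exists_line (p : Metric.sphere (0 : E 2) 1) : ∃ f : Metric.sphere (0 : E 2) 1 → ℝ,
    ContinuousOn f {p}ᶜ ∧ InjOn f {p}ᶜ := by
  have : Fact (Module.finrank ℝ (E 2) = 1 + 1) := ⟨by simp⟩
  refine ⟨fun x => (stereographic' 1 p x) 0, ?_, ?_⟩
  · have h1 := (stereographic' 1 p).continuousOn
    rw [stereographic'_source] at h1
    have h2 : Continuous (fun y : EuclideanSpace ℝ (Fin 1) => y 0) := by fun_prop
    exact h2.comp_continuousOn h1
  · intro x hx y hy hxy
    have h1 := (stereographic' 1 p).injOn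
    rw [stereographic'_source] at h1
    apply h1 hx hy
    ext i
    fin_cases i
    exact hxy

/-- the vertices of a simplicial 1-sphere, except one of them, on a line: the edges join neighbours -/
lemma exists_order {n : ℕ} {Δ : Set (Finset (Fin n))} (hΔ : IsSimplicialSphere 2 Δ) (v₀ : Fin n) :
    ∃ r : Fin n → ℝ, (∀ u w, u ≠ v₀ → w ≠ v₀ → r u = r w → u = w) ∧
      ∀ u w, u ≠ v₀ → w ≠ v₀ → r u < r w → ({u, w} : Finset (Fin n)) ∈ Δ →
        ∀ z, z ≠ v₀ → ¬ (r u < r z ∧ r z < r w) := by
  obtain ⟨hc, ⟨h⟩⟩ := hΔ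
  obtain ⟨f, hf1, hf2⟩ := exists_line (h (vt hc v₀))
  refine ⟨fun u => f (h (vt hc u)), ?_, ?_⟩
  · intro u w hu hw huw
    by_contra hne
    have h1 : h (vt hc u) = h (vt hc w) := by
      apply hf2 _ _ huw
      · intro h2
        exact vt_ne hc hu (h.injective h2)
      · intro h2
        exact vt_ne hc hw (h.injective h2)
    exact vt_ne hc hne (h.injective h1)
  · intro u w hu hw huw he z hz hcon
    have hne : u ≠ w := by
      rintro rfl
      exact lt_irrefl _ huw
    have hmem : ∀ t : Icc (0 : ℝ) 1, h (seg hc hne he t) ∈ ({h (vt hc v₀)} : Set _)ᶜ := by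
      intro t h2
      exact seg_ne hc hne he hu.symm hw.symm t (h.injective h2)
    have hcont : Continuous (fun t : Icc (0 : ℝ) 1 => f (h (seg hc hne he t))) := by
      rw [← continuousOn_univ]
      exact hf1.comp ((h.continuous.comp (continuous_seg hc hne he)).continuousOn) (fun t _ => hmem t)
    have hiv : f (h (vt hc z)) ∈ Set.range (fun t : Icc (0 : ℝ) 1 => f (h (seg hc hne he t))) := by
      have h1 := isPreconnected_range hcont
      have h2 := h1.Icc_subset (a := f (h (vt hc u))) (b := f (h (vt hc w))) ⟨0, by beta_reduce; rw [seg_zero]⟩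
        ⟨1, by beta_reduce; rw [seg_one]⟩
      exact h2 ⟨hcon.1.le, hcon.2.le⟩
    obtain ⟨t, ht⟩ := hiv
    have hz1 : z ≠ u := by
      rintro rfl
      exact lt_irrefl _ hcon.1
    have hz2 : z ≠ w := by
      rintro rfl
      exact lt_irrefl _ hcon.2
    have h3 : h (seg hc hne he t) = h (vt hc z) := hf2 (hmem t) (by
      intro h2
      exact vt_ne hc hz (h.injective h2)) ht
    exact seg_ne hc hne he hz1 hz2 t (h.injective h3)

/-- no facet of a simplicial 1-sphere is a vertex -/
lemma facet_ne_singleton {n : ℕ} {Δ : Set (Finset (Fin n))} (hΔ : IsSimplicialSphere 2 Δ) {v w : Fin n}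
    (hvw : v ≠ w) : ¬ IsFacet Δ {v} := by
  intro hf
  obtain ⟨hc, ⟨h⟩⟩ := hΔ
  have hsing : {x : realization Δ | (x : Fin n → ℝ) v > 0} = {vt hc v} := by
    ext x
    rw [mem_setOf_eq, mem_singleton_iff]
    constructor
    · intro hx
      obtain ⟨h1, h2, h3⟩ := x.2
      have h4 := hf.2 _ h3 (by
        rw [Finset.singleton_subset_iff, Finset.mem_filter]
        exact ⟨Finset.mem_univ _, hx.ne'⟩)
      have h5 : ∀ i, i ≠ v → (x : Fin n → ℝ) i = 0 := by
        intro i hi
        by_contra hne
        have : i ∈ Finset.univ.filter (fun i => (x : Fin n → ℝ) i ≠ 0) :=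
          Finset.mem_filter.2 ⟨Finset.mem_univ _, hne⟩
        rw [h4, Finset.mem_singleton] at this
        exact hi this
      apply Subtype.ext
      funext i
      by_cases hi : i = v
      · subst hi
        rw [Finset.sum_eq_single i (fun j _ hj => h5 j hj) (fun hj => absurd (Finset.mem_univ i) hj)] at h2
        rw [h2]
        simp [vt]
      · rw [h5 i hi]
        simp [vt, Pi.single_eq_of_ne hi]
    · rintro rfl
      simp [vt]
  have hopen : IsOpen ({vt hc v} : Set (realization Δ)) := by
    rw [← hsing]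
    apply isOpen_lt continuous_const
    exact (continuous_apply v).comp continuous_subtype_val
  have hconn : ConnectedSpace (Metric.sphere (0 : E 2) 1) := by
    apply isConnected_iff_connectedSpace.1
    apply isConnected_sphere _ _ zero_le_one
    rw [← Module.finrank_eq_rank, finrank_euclideanSpace_fin]
    norm_num
  have hconn2 : ConnectedSpace (realization Δ) := h.symm.surjective.connectedSpace h.symm.continuous
  have hcl : IsClopen ({vt hc v} : Set (realization Δ)) := ⟨isClosed_singleton, hopen⟩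
  rcases isClopen_iff.1 hcl with h1 | h1
  · exact Set.singleton_ne_empty _ h1
  · have : vt hc w ∈ ({vt hc v} : Set (realization Δ)) := by rw [h1]; exact mem_univ _
    exact vt_ne hc hvw.symm this

/-- the transversal number of a simplicial 1-sphere with `n` vertices is at most `(n + 1) / 2` -/
theorem two_le {n : ℕ} (hn : 2 ≤ n) {Δ : Set (Finset (Fin n))} (hΔ : IsSimplicialSphere 2 Δ) :
    2 * transversalNumber Δ ≤ n + 1 := by
  classical
  obtain ⟨v₀, hv₀⟩ : ∃ v₀ : Fin n, v₀ = ⟨0, by omega⟩ := ⟨_, rfl⟩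
  obtain ⟨r, hr1, hr2⟩ := exists_order hΔ v₀
  obtain ⟨S, hS⟩ : ∃ S : Finset (Fin n), S = Finset.univ.erase v₀ := ⟨_, rfl⟩
  have hSm : ∀ u, u ∈ S ↔ u ≠ v₀ := by
    intro u
    rw [hS, Finset.mem_erase]
    exact ⟨fun h => h.1, fun h => ⟨h, Finset.mem_univ _⟩⟩
  obtain ⟨rk, hrk⟩ : ∃ rk : Fin n → ℕ, ∀ u, rk u = (S.filter (fun z => r z < r u)).card := ⟨_, fun _ => rfl⟩
  have hstep : ∀ u w, u ∈ S → w ∈ S → r u < r w → ({u, w} : Finset (Fin n)) ∈ Δ → rk w = rk u + 1 := by
    intro u w hu hw huw he
    have h1 : S.filter (fun z => r z < r w) = insert u (S.filter (fun z => r z < r u)) := by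
      ext z
      rw [Finset.mem_filter, Finset.mem_insert, Finset.mem_filter]
      constructor
      · rintro ⟨hz, hzw⟩
        have h2 := hr2 u w ((hSm u).1 hu) ((hSm w).1 hw) huw he z ((hSm z).1 hz)
        have h3 : r z ≤ r u := by
          by_contra hcon
          push Not at hcon
          exact h2 ⟨hcon, hzw⟩
        rcases h3.lt_or_eq with h4 | h4
        · exact Or.inr ⟨hz, h4⟩
        · exact Or.inl (hr1 z u ((hSm z).1 hz) ((hSm u).1 hu) h4)
      · rintro (rfl | ⟨hz, h4⟩)
        · exact ⟨hu, huw⟩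
        · exact ⟨hz, h4.trans huw⟩
    rw [hrk, hrk, h1, Finset.card_insert_of_notMem]
    intro h2
    rw [Finset.mem_filter] at h2
    exact lt_irrefl _ h2.2
  obtain ⟨I, hI⟩ : ∃ I : ℕ → Finset (Fin n), ∀ b, I b = S.filter (fun u => rk u % 2 = b) := ⟨_, fun _ => rfl⟩
  have htr : ∀ b, IsTransversal Δ (I b)ᶜ := by
    intro b s hs
    by_contra hcon
    push Not at hcon
    have hsub : ∀ v ∈ s, v ∈ S ∧ rk v % 2 = b := by
      intro v hv
      have h1 := hcon v hv
      rw [Finset.mem_compl, not_not, hI, Finset.mem_filter] at h1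
      exact h1
    have hne : s.Nonempty := by
      by_contra h1
      rw [Finset.not_nonempty_iff_eq_empty] at h1
      have h2 := hs.2 {v₀} (hΔ.1.vert v₀) (by rw [h1]; exact Finset.empty_subset _)
      rw [h1] at h2
      exact Finset.singleton_ne_empty _ h2
    obtain ⟨u, hu⟩ := hne
    by_cases h1 : s = {u}
    · rw [h1] at hs
      exact facet_ne_singleton hΔ ((hSm u).1 (hsub u hu).1) hs
    · obtain ⟨w, hw, hwu⟩ : ∃ w ∈ s, w ≠ u := by
        by_contra hcon2
        push Not at hcon2
        exact h1 (Finset.eq_singleton_iff_unique_mem.2 ⟨hu, hcon2⟩)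
      have he : ({u, w} : Finset (Fin n)) ∈ Δ := hΔ.1.down s hs.1 _ (by
        intro z hz
        rw [Finset.mem_insert, Finset.mem_singleton] at hz
        rcases hz with rfl | rfl
        · exact hu
        · exact hw)
      have hu' := hsub u hu
      have hw' := hsub w hw
      rcases lt_trichotomy (r u) (r w) with h2 | h2 | h2
      · have := hstep u w hu'.1 hw'.1 h2 he
        omega
      · exact hwu (hr1 u w ((hSm u).1 hu'.1) ((hSm w).1 hw'.1) h2).symm
      · rw [Finset.pair_comm] at he
        have := hstep w u hw'.1 hu'.1 h2 he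
        omega
  have hle : ∀ b, transversalNumber Δ ≤ (I b)ᶜ.card := fun b => Nat.sInf_le ⟨_, htr b, rfl⟩
  have hcard : (I 0).card + (I 1).card = n - 1 := by
    have h1 : S.card = n - 1 := by
      rw [hS, Finset.card_erase_of_mem (Finset.mem_univ _), Finset.card_univ, Fintype.card_fin]
    have h2 := Finset.card_filter_add_card_filter_not (s := S) (fun u => rk u % 2 = 0)
    have h3 : S.filter (fun u => ¬ rk u % 2 = 0) = S.filter (fun u => rk u % 2 = 1) := by
      apply Finset.filter_congr
      intro u _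
      omega
    rw [hI, hI, ← h1, ← h2, h3]
  have h0 := hle 0
  have h1 := hle 1
  rw [Finset.card_compl, Fintype.card_fin] at h0 h1
  omega

end Pool.Agent.W5h32.TR
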