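import Mathlib
import Pool.Agent.W5h32.TR.Two
import Pool.Agent.W5h32.TR.Three

/-!
# The sequences of the maximal transversal ratios are weakly increasing
-/

set_option autoImplicit false

namespace Pool.Agent.W5h32.TR

open Pool.Agent.H523R3.Trans Filter Topology

lemma tau_le (A : ℕ → Set ℝ) (h0 : ∀ n, ∀ t ∈ A n, 0 ≤ t) (c : ℝ) (h : ∀ ε > 0, ∀ᶠ n in atTop, ∀ t ∈ A n, t ≤ c + ε)
    (hc : 0 ≤ c) : limsup (fun n => sSup (A n)) atTop ≤ c := by
  apply le_of_forall_pos_le_add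
  intro ε hε
  apply limsup_le_of_le
  · exact isCoboundedUnder_le_of_le atTop (x := 0) (fun n => Real.sSup_nonneg (h0 n))
  · filter_upwards [h ε hε] with n hn
    exact Real.sSup_le hn (by linarith)

lemma le_tau (A : ℕ → Set ℝ) (h1 : ∀ n, ∀ t ∈ A n, t ≤ 1) (c : ℝ)
    (h : ∀ ε > 0, ∃ᶠ n in atTop, ∃ t ∈ A n, c - ε ≤ t) : c ≤ limsup (fun n => sSup (A n)) atTop := by
  apply le_of_forall_pos_le_add
  intro ε hε
  have h2 : c - ε ≤ limsup (fun n => sSup (A n)) atTop := by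
    apply le_limsup_of_frequently_le
    · refine (h ε hε).mono ?_
      rintro n ⟨t, ht, h3⟩
      exact h3.trans (le_csSup ⟨1, h1 n⟩ ht)
    · exact isBoundedUnder_of ⟨1, fun n => Real.sSup_le (h1 n) zero_le_one⟩
  linarith

lemma ratio_two_le {n : ℕ} (hn : 2 ≤ n) {Δ : Set (Finset (Fin n))} (hΔ : IsSimplicialSphere 2 Δ) :
    transversalRatio Δ ≤ 1 / 2 + 1 / (n : ℝ) := by
  have h := two_le hn hΔ
  have hn0 : (0 : ℝ) < n := by exact_mod_cast (by omega : 0 < n)
  have h2 : 2 * (transversalNumber Δ : ℝ) ≤ n + 1 := by exact_mod_cast h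
  unfold transversalRatio
  rw [div_le_iff₀ hn0]
  have : (1 / 2 + 1 / (n : ℝ)) * n = n / 2 + 1 := by
    field_simp
  rw [this]
  linarith

lemma ev_small (ε : ℝ) (hε : 0 < ε) : ∀ᶠ n : ℕ in atTop, 2 ≤ n ∧ 1 / (n : ℝ) ≤ ε := by
  have h1 := tendsto_one_div_atTop_nhds_zero_nat (𝕜 := ℝ)
  filter_upwards [eventually_ge_atTop 2, h1.eventually_le_const hε] with n h2 h3
  exact ⟨h2, h3⟩

theorem tauS_two : tauS 2 ≤ 1 / 2 := by
  apply tau_le
  · rintro n t ⟨Δ, hΔ, rfl⟩
    exact transversalRatio_nonneg Δ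
  · intro ε hε
    filter_upwards [ev_small ε hε] with n hn
    rintro t ⟨Δ, hΔ, rfl⟩
    exact (ratio_two_le hn.1 hΔ).trans (by linarith [hn.2])
  · norm_num

theorem tauP_two : tauP 2 ≤ 1 / 2 := by
  apply tau_le
  · rintro n t ⟨p, hp, rfl⟩
    exact transversalRatio_nonneg _
  · intro ε hε
    filter_upwards [ev_small ε hε] with n hn
    rintro t ⟨p, hp, rfl⟩
    exact (ratio_two_le hn.1 (isSimplicialSphere_boundary (by norm_num) hp)).trans (by linarith [hn.2])
  · norm_num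

lemma freq_three (ε : ℝ) (hε : 0 < ε) : ∃ᶠ n : ℕ in atTop, ∃ p : Fin n → E 3, IsSimplicialPolytope 3 p ∧
    1 / 2 - ε ≤ transversalRatio (boundary p) := by
  rw [frequently_atTop]
  intro N
  obtain ⟨m, hm⟩ := eventually_atTop.1 (ev_small ε hε)
  obtain ⟨M, hM⟩ : ∃ M, M = max (max m N) 1 := ⟨_, rfl⟩
  have h1 : m ≤ M := by rw [hM]; exact (le_max_left _ _).trans (le_max_left _ _)
  have h2 : N ≤ M := by rw [hM]; exact (le_max_right _ _).trans (le_max_left _ _)
  have h3 : 1 ≤ M := by rw [hM]; exact le_max_right _ _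
  refine ⟨4 * M, by omega, ?_⟩
  obtain ⟨p, hp, hr⟩ := exists_three M h3
  refine ⟨p, hp, le_trans ?_ hr⟩
  have h4 := (hm M h1).2
  have h5 : (0 : ℝ) < M := by exact_mod_cast h3
  have h6 : 1 / (2 * (M : ℝ)) ≤ 1 / M := by
    apply one_div_le_one_div_of_le h5
    linarith
  linarith

theorem tauP_three : 1 / 2 ≤ tauP 3 := by
  apply le_tau
  · rintro n t ⟨p, hp, rfl⟩
    exact transversalRatio_le_one (isComplex_boundary (by norm_num) hp)
  · intro ε hε
    refine (freq_three ε hε).mono ?_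
    rintro n ⟨p, hp, hr⟩
    exact ⟨_, ⟨p, hp, rfl⟩, hr⟩

theorem tauS_three : 1 / 2 ≤ tauS 3 := by
  apply le_tau
  · rintro n t ⟨Δ, hΔ, rfl⟩
    exact transversalRatio_le_one hΔ.1
  · intro ε hε
    refine (freq_three ε hε).mono ?_
    rintro n ⟨p, hp, hr⟩
    exact ⟨_, ⟨boundary p, isSimplicialSphere_boundary (by norm_num) hp, rfl⟩, hr⟩

theorem tauP_le_one {d : ℕ} (hd : 0 < d) : tauP d ≤ 1 := by
  apply tau_le
  · rintro n t ⟨p, hp, rfl⟩
    exact transversalRatio_nonneg _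
  · intro ε hε
    refine Eventually.of_forall fun n => ?_
    rintro t ⟨p, hp, rfl⟩
    exact (transversalRatio_le_one (isComplex_boundary hd hp)).trans (by linarith)
  · norm_num

theorem tauS_le_one (d : ℕ) : tauS d ≤ 1 := by
  apply tau_le
  · rintro n t ⟨Δ, hΔ, rfl⟩
    exact transversalRatio_nonneg _
  · intro ε hε
    refine Eventually.of_forall fun n => ?_
    rintro t ⟨Δ, hΔ, rfl⟩
    exact (transversalRatio_le_one hΔ.1).trans (by linarith)
  · norm_num

theorem mono_P (d e : ℕ) (hd : 2 ≤ d) (hde : d ≤ e) : tauP d ≤ tauP e := by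
  rcases Nat.lt_or_ge e 4 with he | he
  · have h1 := tauP_two
    have h2 := tauP_three
    rcases (by omega : d = e ∨ (d = 2 ∧ e = 3)) with rfl | ⟨rfl, rfl⟩
    · exact le_rfl
    · linarith
  · rw [tauP_eq_one he]
    exact tauP_le_one (by omega)

theorem mono_S (d e : ℕ) (hd : 2 ≤ d) (hde : d ≤ e) : tauS d ≤ tauS e := by
  rcases Nat.lt_or_ge e 4 with he | he
  · have h1 := tauS_two
    have h2 := tauS_three
    rcases (by omega : d = e ∨ (d = 2 ∧ e = 3)) with rfl | ⟨rfl, rfl⟩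
    · exact le_rfl
    · linarith
  · rw [tauS_eq_one he]
    exact tauS_le_one d

end Pool.Agent.W5h32.TR
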